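import Pool.Agent.Helper65.KG.Goals

/-!
# PROJECT KG, packet FC2: two-dimensional faces
-/

set_option autoImplicit false

open MeasureTheory Set

namespace Pool.Agent.Helper51.KG.FC2

open Pool.Agent.Helper70.KN Pool.Agent.Helper65.KG

variable {N : ℕ}

theorem newton_half (V : Finset (Fin N → ℕ)) (a : Fin N → ℝ) (ha : ∀ k, 0 ≤ a k)
    (h : ∀ v ∈ V, 1 ≤ ∑ k, a k * (v k : ℝ)) {x : Fin N → ℝ} (hx : x ∈ newton V) :
    1 ≤ ∑ k, a k * x k := by
  obtain ⟨z, hz, hzx⟩ := hx
  have h1 : convexHull ℝ ((fun (v : Fin N → ℕ) (i : Fin N) => (v i : ℝ)) ''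
      (V : Set (Fin N → ℕ))) ⊆ {z : Fin N → ℝ | 1 ≤ ∑ k, a k * z k} := by
    apply convexHull_min
    · rintro _ ⟨v, hv, rfl⟩
      exact h v (by simpa using hv)
    · intro y hy y' hy' s t hs ht hst
      have hy1 : 1 ≤ ∑ k, a k * y k := hy
      have hy2 : 1 ≤ ∑ k, a k * y' k := hy'
      show 1 ≤ ∑ k, a k * (s • y + t • y') k
      have e : ∑ k, a k * (s • y + t • y') k =
          s * ∑ k, a k * y k + t * ∑ k, a k * y' k := by
        simp only [Pi.add_apply, Pi.smul_apply, smul_eq_mul, Finset.mul_sum,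
          ← Finset.sum_add_distrib]
        exact Finset.sum_congr rfl fun k _ => by ring
      rw [e]
      nlinarith
  have h2 : 1 ≤ ∑ k, a k * z k := h1 hz
  exact h2.trans (Finset.sum_le_sum fun k _ => mul_le_mul_of_nonneg_left (hzx k) (ha k))

theorem newton_two (V : Finset (Fin N → ℕ)) {i j : Fin N} (hij : i ≠ j) (hT : Thick V 2)
    {α β : ℝ} (hα : 0 ≤ α) (hβ : 0 ≤ β)
    (h : ∀ v ∈ V, (∀ k, k ≠ i → k ≠ j → v k = 0) → 1 ≤ α * (v i : ℝ) + β * (v j : ℝ))
    {x : Fin N → ℝ} (hx : x ∈ newton V) (hx0 : ∀ k, k ≠ i → k ≠ j → x k = 0) :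
    1 ≤ α * x i + β * x j := by
  have hsum : ∀ y : Fin N → ℝ, ∑ k, (if k = i then α else if k = j then β else 1) * y k =
      α * y i + β * y j + ∑ k ∈ (Finset.univ.erase i).erase j, y k := by
    intro y
    rw [← Finset.add_sum_erase _ _ (Finset.mem_univ i), ← Finset.add_sum_erase _ _
      (Finset.mem_erase.2 ⟨hij.symm, Finset.mem_univ j⟩), if_pos rfl, if_neg hij.symm, if_pos rfl,
      add_assoc]
    congr 2
    refine Finset.sum_congr rfl fun k hk => ?_
    rw [Finset.mem_erase, Finset.mem_erase] at hk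
    rw [if_neg hk.2.1, if_neg hk.1, one_mul]
  have h1 := newton_half V (fun k => if k = i then α else if k = j then β else 1)
    (fun k => by
      show (0 : ℝ) ≤ if k = i then α else if k = j then β else 1
      split_ifs
      · exact hα
      · exact hβ
      · exact zero_le_one) (fun v hv => by
      show (1 : ℝ) ≤ ∑ k, (if k = i then α else if k = j then β else 1) * (v k : ℝ)
      rw [hsum]
      have hn1 : (0 : ℝ) ≤ α * (v i : ℝ) := mul_nonneg hα (Nat.cast_nonneg _)
      have hn2 : (0 : ℝ) ≤ β * (v j : ℝ) := mul_nonneg hβ (Nat.cast_nonneg _)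
      by_cases hv0 : ∀ k, k ≠ i → k ≠ j → v k = 0
      · have := h v hv hv0
        have hn3 : (0 : ℝ) ≤ ∑ k ∈ (Finset.univ.erase i).erase j, (v k : ℝ) :=
          Finset.sum_nonneg fun k _ => Nat.cast_nonneg _
        linarith
      · push_neg at hv0
        obtain ⟨k, hki, hkj, hk0⟩ := hv0
        have h2 : (2 : ℝ) ≤ (v k : ℝ) := hT.2.2.2 v hv k hk0
        have h3 : (v k : ℝ) ≤ ∑ k ∈ (Finset.univ.erase i).erase j, (v k : ℝ) :=
          Finset.single_le_sum (f := fun k => (v k : ℝ)) (fun k _ => Nat.cast_nonneg _)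
            (Finset.mem_erase.2 ⟨hkj, Finset.mem_erase.2 ⟨hki, Finset.mem_univ k⟩⟩)
        linarith) hx
  have h2 : (1 : ℝ) ≤ ∑ k, (if k = i then α else if k = j then β else 1) * x k := h1
  rw [hsum, Finset.sum_eq_zero] at h2
  · linarith
  · intro k hk
    rw [Finset.mem_erase, Finset.mem_erase] at hk
    exact hx0 k hk.2.1 hk.1

theorem slice_bd (V : Finset (Fin N → ℕ)) {i j : Fin N} (hij : i ≠ j) {a b : ℝ} (ha : 0 ≤ a)
    (hab : a ≤ b) (f : ℝ → ℝ) (hf : Continuous f) (hp : ∀ t ∈ Ico a b, 0 ≤ f t)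
    (hn : ∀ t ∈ Ico a b, ∀ x : Fin N → ℝ, x j = t → 0 ≤ x i → x i < f t →
      (∀ k, k ≠ i → k ≠ j → x k = 0) → x ∉ newton V) :
    ENNReal.ofReal (∫ t in a..b, f t) ≤ ∫⁻ t in Ico a b,
      volume {x : Fin N → ℝ | 0 ≤ x j ∧ x j < 1 ∧
        Function.update x j t ∈ cyl V ({i, j} : Finset (Fin N))ᶜ} := by
  have e1 : ENNReal.ofReal (∫ t in a..b, f t) = ∫⁻ t in Ico a b, ENNReal.ofReal (f t) := by
    rw [intervalIntegral.integral_of_le hab, ← MeasureTheory.integral_Ico_eq_integral_Ioc,
      MeasureTheory.ofReal_integral_eq_lintegral_ofReal]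
    · exact (hf.integrableOn_Icc (a := a) (b := b)).mono_set Ico_subset_Icc_self
    · exact (ae_restrict_iff' measurableSet_Ico).2 (Filter.Eventually.of_forall hp)
  rw [e1]
  refine setLIntegral_mono' measurableSet_Ico fun t ht => ?_
  have e2 : volume (Set.pi univ fun k : Fin N => Ico (0 : ℝ) (if k = i then f t else 1)) =
      ENNReal.ofReal (f t) := by
    rw [Real.volume_pi_Ico, Finset.prod_eq_single i]
    · rw [if_pos rfl, sub_zero]
    · intro k _ hk
      rw [if_neg hk, sub_zero, ENNReal.ofReal_one]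
    · intro h
      exact absurd (Finset.mem_univ i) h
  rw [← e2]
  refine measure_mono fun x hx => ?_
  have hx' : ∀ k, 0 ≤ x k ∧ x k < if k = i then f t else 1 := fun k => by
    have := hx k (mem_univ k)
    exact ⟨this.1, this.2⟩
  have hxi := (hx' i).2
  rw [if_pos rfl] at hxi
  have hxk : ∀ k, k ≠ i → x k < 1 := fun k hk => by
    have := (hx' k).2
    rwa [if_neg hk] at this
  refine ⟨(hx' j).1, hxk j hij.symm, fun k => ?_, fun k hk => ?_, ?_⟩
  · rcases eq_or_ne k j with rfl | hkj
    · rw [Function.update_self]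
      exact ha.trans ht.1
    · rw [Function.update_of_ne hkj]
      exact (hx' k).1
  · rw [Finset.mem_compl, Finset.mem_insert, Finset.mem_singleton, not_or] at hk
    rw [Function.update_of_ne hk.2]
    exact hxk k hk.1
  · have hJi : i ∉ ({i, j} : Finset (Fin N))ᶜ := by simp
    have hJj : j ∉ ({i, j} : Finset (Fin N))ᶜ := by simp
    have z1 : zr ({i, j} : Finset (Fin N))ᶜ (Function.update x j t) i = x i := by
      show (if i ∈ ({i, j} : Finset (Fin N))ᶜ then (0 : ℝ) else Function.update x j t i) = x i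
      rw [if_neg hJi, Function.update_of_ne hij]
    have z2 : zr ({i, j} : Finset (Fin N))ᶜ (Function.update x j t) j = t := by
      show (if j ∈ ({i, j} : Finset (Fin N))ᶜ then (0 : ℝ) else Function.update x j t j) = t
      rw [if_neg hJj, Function.update_self]
    refine hn t ht _ z2 (by rw [z1]; exact (hx' i).1) (by rw [z1]; exact hxi) fun k hki hkj => ?_
    show (if k ∈ ({i, j} : Finset (Fin N))ᶜ then (0 : ℝ) else Function.update x j t k) = 0
    rw [if_pos]
    rw [Finset.mem_compl, Finset.mem_insert, Finset.mem_singleton, not_or]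
    exact ⟨hki, hkj⟩

theorem int_lin (a b c d : ℝ) : ∫ t in a..b, (c + d * t) =
    c * (b - a) + d * ((b ^ 2 - a ^ 2) / 2) := by
  rw [intervalIntegral.integral_add, intervalIntegral.integral_const,
    intervalIntegral.integral_const_mul, integral_id, smul_eq_mul]
  · ring
  · exact intervalIntegrable_const
  · exact (continuous_const.mul continuous_id).intervalIntegrable _ _

theorem t : S_FC2 := by
  intro N V hT i j m m' hij hm hm0 hm' hm0'
  have hV0 : (0 : Fin N → ℕ) ∉ V := hT.2.2.1
  have single_ge : ∀ (l : Fin N) (p : ℕ), (Pi.single l p : Fin N → ℕ) ∈ V → (2 : ℝ) ≤ p := by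
    intro l p hp
    have hp0 : p ≠ 0 := by
      rintro rfl
      rw [Pi.single_zero] at hp
      exact hV0 hp
    have := hT.2.2.2 _ hp l (by rw [Pi.single_eq_same]; exact hp0)
    rwa [Pi.single_eq_same] at this
  have m2 := single_ge i m hm
  have m2' := single_ge j m' hm'
  -- the exponents in the plane
  have hcase : ∀ v ∈ V, (∀ k, k ≠ i → k ≠ j → v k = 0) →
      ((m : ℝ) ≤ v i ∧ v j = 0) ∨ (v i = 0 ∧ (m' : ℝ) ≤ v j) ∨
        ((2 : ℝ) ≤ v i ∧ (2 : ℝ) ≤ v j) := by
    intro v hv h0
    by_cases hi : v i = 0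
    · right; left
      refine ⟨hi, ?_⟩
      have e : v = Pi.single j (v j) := by
        funext k
        rcases eq_or_ne k j with rfl | hkj
        · rw [Pi.single_eq_same]
        · rw [Pi.single_eq_of_ne hkj]
          rcases eq_or_ne k i with rfl | hki
          · exact hi
          · exact h0 k hki hkj
      have := hm0' (v j) (e ▸ hv)
      exact_mod_cast this
    · by_cases hj : v j = 0
      · left
        refine ⟨?_, hj⟩
        have e : v = Pi.single i (v i) := by
          funext k
          rcases eq_or_ne k i with rfl | hki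
          · rw [Pi.single_eq_same]
          · rw [Pi.single_eq_of_ne hki]
            rcases eq_or_ne k j with rfl | hkj
            · exact hj
            · exact h0 k hki hkj
        have := hm0 (v i) (e ▸ hv)
        exact_mod_cast this
      · right; right
        exact ⟨hT.2.2.2 v hv i hi, hT.2.2.2 v hv j hj⟩
  obtain ⟨hmeas, hfin, -⟩ := pMF N V hT.1 ({i, j} : Finset (Fin N))ᶜ
  have hSI := pSI N (cyl V ({i, j} : Finset (Fin N))ᶜ) j hmeas
  have mp : (0 : ℝ) < m := by linarith
  have mp' : (0 : ℝ) < m' := by linarith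
  rcases le_total ((m : ℝ) * m') (2 * (m + m')) with hc | hc
  · -- case 1
    refine (min_le_left _ _).trans ?_
    have h1 := slice_bd V hij (a := 0) (b := m') le_rfl mp'.le
      (fun t => (m : ℝ) + (-(m / m') : ℝ) * t) (by fun_prop)
      (fun t ht => by
        have : (m : ℝ) + (-(m / m') : ℝ) * t = m * (m' - t) / m' := by field_simp; ring
        show 0 ≤ (m : ℝ) + (-(m / m') : ℝ) * t
        rw [this]
        have := ht.2
        exact div_nonneg (mul_nonneg mp.le (by linarith)) mp'.le)
      (fun t ht x hxj hxi hxi' hx0 hx => by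
        have h2 := newton_two V hij hT (α := 1 / m) (β := 1 / m') (by positivity) (by positivity)
          (fun v hv hv0 => by
            have hvi : (0 : ℝ) ≤ v i := Nat.cast_nonneg _
            have hvj : (0 : ℝ) ≤ v j := Nat.cast_nonneg _
            have e : 1 / (m : ℝ) * v i + 1 / m' * v j = (v i * m' + v j * m) / (m * m') := by
              field_simp
            rw [e, le_div_iff₀ (by positivity), one_mul]
            rcases hcase v hv hv0 with ⟨h3, h4⟩ | ⟨h3, h4⟩ | ⟨h3, h4⟩
            · rw [h4]; push_cast; nlinarith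
            · rw [h3]; push_cast; nlinarith
            · nlinarith) hx hx0
        rw [hxj] at h2
        have h3 : x i < m + (-(m / m') : ℝ) * t := hxi'
        have e1 : 1 / (m : ℝ) * x i + 1 / m' * t = (x i * m' + t * m) / (m * m') := by
          field_simp
        rw [e1, le_div_iff₀ (by positivity), one_mul] at h2
        have e2 : (m : ℝ) + (-(m / m') : ℝ) * t = (m * m' - m * t) / m' := by field_simp; ring
        rw [e2, lt_div_iff₀ mp'] at h3
        linarith)
    rw [int_lin] at h1
    have h4 : ENNReal.ofReal ((m : ℝ) * (m' - 0) + -(m / m' : ℝ) * (((m' : ℝ) ^ 2 - 0 ^ 2) / 2)) ≤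
        volume (cyl V ({i, j} : Finset (Fin N))ᶜ) := by
      rw [hSI]
      exact h1.trans (setLIntegral_le_lintegral _ _)
    have h5 := (ENNReal.ofReal_le_iff_le_toReal hfin).1 h4
    have e3 : (m : ℝ) * (m' - 0) + -(m / m' : ℝ) * (((m' : ℝ) ^ 2 - 0 ^ 2) / 2) = m * m' / 2 := by
      field_simp
      ring
    rw [e3] at h5
    have h6 : W V ({i, j} : Finset (Fin N))ᶜ =
      (volume (cyl V ({i, j} : Finset (Fin N))ᶜ)).toReal := rfl
    rw [h6]
    linarith
  · -- case 2
    refine (min_le_right _ _).trans ?_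
    have m3' : (2 : ℝ) < m' := by
      rcases lt_or_eq_of_le m2' with h | h
      · exact h
      · exfalso
        rw [← h] at hc
        linarith
    have m3 : (2 : ℝ) < m := by
      rcases lt_or_eq_of_le m2 with h | h
      · exact h
      · exfalso
        rw [← h] at hc
        linarith
    have mq' : (0 : ℝ) < (m' : ℝ) - 2 := by linarith
    have h1 := slice_bd V hij (a := 0) (b := 2) le_rfl (by norm_num)
      (fun t => (m : ℝ) + (-((m - 2) / 2) : ℝ) * t) (by fun_prop)
      (fun t ht => by
        have := ht.2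
        have := ht.1
        show 0 ≤ (m : ℝ) + (-((m - 2) / 2) : ℝ) * t
        nlinarith)
      (fun t ht x hxj hxi hxi' hx0 hx => by
        have h2 := newton_two V hij hT (α := 1 / m) (β := (m - 2) / (2 * m)) (by positivity)
          (div_nonneg (by linarith) (by positivity))
          (fun v hv hv0 => by
            have hvi : (0 : ℝ) ≤ v i := Nat.cast_nonneg _
            have hvj : (0 : ℝ) ≤ v j := Nat.cast_nonneg _
            have e : 1 / (m : ℝ) * v i + (m - 2) / (2 * m) * v j =
                (2 * v i + v j * (m - 2)) / (2 * m) := by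
              field_simp
            rw [e, le_div_iff₀ (by positivity), one_mul]
            rcases hcase v hv hv0 with ⟨h3, h4⟩ | ⟨h3, h4⟩ | ⟨h3, h4⟩
            · rw [h4]; push_cast; nlinarith
            · rw [h3]; push_cast; nlinarith
            · nlinarith) hx hx0
        rw [hxj] at h2
        have h3 : x i < m + (-((m - 2) / 2) : ℝ) * t := hxi'
        have e1 : 1 / (m : ℝ) * x i + (m - 2) / (2 * m) * t =
            (2 * x i + t * (m - 2)) / (2 * m) := by
          field_simp
        rw [e1, le_div_iff₀ (by positivity), one_mul] at h2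
        linarith)
    have h1' := slice_bd V hij (a := 2) (b := m') (by norm_num) m3'.le
      (fun t => (2 * m' / (m' - 2) : ℝ) + (-(2 / (m' - 2)) : ℝ) * t) (by fun_prop)
      (fun t ht => by
        have h2 := ht.2
        show 0 ≤ (2 * m' / (m' - 2) : ℝ) + (-(2 / (m' - 2)) : ℝ) * t
        have e : (2 * m' / (m' - 2) : ℝ) + (-(2 / (m' - 2)) : ℝ) * t =
            2 * (m' - t) / (m' - 2) := by
          field_simp
          ring
        rw [e]
        exact div_nonneg (by linarith) mq'.le)
      (fun t ht x hxj hxi hxi' hx0 hx => by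
        have h2 := newton_two V hij hT (α := (m' - 2) / (2 * m')) (β := 1 / m')
          (div_nonneg (by linarith) (by positivity)) (by positivity)
          (fun v hv hv0 => by
            have hvi : (0 : ℝ) ≤ v i := Nat.cast_nonneg _
            have hvj : (0 : ℝ) ≤ v j := Nat.cast_nonneg _
            have e : (m' - 2) / (2 * m') * (v i : ℝ) + 1 / (m' : ℝ) * v j =
                (v i * (m' - 2) + 2 * v j) / (2 * m') := by
              field_simp
            rw [e, le_div_iff₀ (by positivity), one_mul]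
            rcases hcase v hv hv0 with ⟨h3, h4⟩ | ⟨h3, h4⟩ | ⟨h3, h4⟩
            · rw [h4]; push_cast; nlinarith
            · rw [h3]; push_cast; nlinarith
            · nlinarith) hx hx0
        rw [hxj] at h2
        have h3 : x i < (2 * m' / (m' - 2) : ℝ) + (-(2 / (m' - 2)) : ℝ) * t := hxi'
        have e1 : (m' - 2) / (2 * m') * x i + 1 / (m' : ℝ) * t =
            (x i * (m' - 2) + 2 * t) / (2 * m') := by
          field_simp
        rw [e1, le_div_iff₀ (by positivity), one_mul] at h2
        have e : (2 * m' / (m' - 2) : ℝ) + (-(2 / (m' - 2)) : ℝ) * t =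
            2 * (m' - t) / (m' - 2) := by
          field_simp
          ring
        rw [e, lt_div_iff₀ mq'] at h3
        linarith)
    rw [int_lin] at h1 h1'
    have h4 : ENNReal.ofReal ((m : ℝ) * (2 - 0) + (-((m - 2) / 2) : ℝ) * (((2 : ℝ) ^ 2 - 0 ^ 2) / 2)) +
        ENNReal.ofReal ((2 * m' / (m' - 2) : ℝ) * (m' - 2) +
          (-(2 / (m' - 2)) : ℝ) * (((m' : ℝ) ^ 2 - 2 ^ 2) / 2)) ≤
        volume (cyl V ({i, j} : Finset (Fin N))ᶜ) := by
      rw [hSI]
      refine (add_le_add h1 h1').trans ?_
      rw [← lintegral_union measurableSet_Ico]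
      · exact setLIntegral_le_lintegral _ _
      · rw [Set.disjoint_left]
        intro t ht ht'
        exact absurd ht.2 (not_lt.2 ht'.1)
    have e3 : (m : ℝ) * (2 - 0) + (-((m - 2) / 2) : ℝ) * (((2 : ℝ) ^ 2 - 0 ^ 2) / 2) = m + 2 := by
      ring
    have e4 : (2 * m' / (m' - 2) : ℝ) * (m' - 2) +
          (-(2 / (m' - 2)) : ℝ) * (((m' : ℝ) ^ 2 - 2 ^ 2) / 2) = m' - 2 := by
      field_simp
      ring
    rw [e3, e4, ← ENNReal.ofReal_add (by linarith) mq'.le] at h4
    have h5 := (ENNReal.ofReal_le_iff_le_toReal hfin).1 h4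
    have h6 : W V ({i, j} : Finset (Fin N))ᶜ =
      (volume (cyl V ({i, j} : Finset (Fin N))ᶜ)).toReal := rfl
    rw [h6]
    linarith

end Pool.Agent.Helper51.KG.FC2
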